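import Mathlib
import Pool.Agent.Y806.SD.E

/-!
# `k`-fold products of integers with small digits in a large base
-/

set_option autoImplicit false

open Finset Polynomial

namespace Pool.Agent.T2H83.ES

open Pool.Agent.Y806.SD Pool.Agent.H388SL

lemma mul_coeff_le (m : ℕ) (a : ℕ → ℤ) (H B : ℤ) (ha : ∀ i, |a i| ≤ H) (g : ℤ[X])
    (hg : ∀ k, |g.coeff k| ≤ B) (k : ℕ) : |(poly m a * g).coeff k| ≤ m * (H * B) := by
  have hH : 0 ≤ H := (abs_nonneg _).trans (ha 0)
  have hB : 0 ≤ B := (abs_nonneg _).trans (hg 0)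
  have h1 : (poly m a * g).coeff k =
      ∑ i ∈ Finset.range m, a i * (if i ≤ k then g.coeff (k - i) else 0) := by
    rw [poly, Finset.sum_mul, finsetSum_coeff]
    apply Finset.sum_congr rfl
    intro i _
    rw [mul_assoc, coeff_C_mul, coeff_X_pow_mul']
  have h2 : ∀ i ∈ Finset.range m, |a i * (if i ≤ k then g.coeff (k - i) else 0)| ≤ H * B := by
    intro i _
    have h3 : |(if i ≤ k then g.coeff (k - i) else 0)| ≤ B := by
      by_cases h : i ≤ k
      · rw [if_pos h]; exact hg _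
      · rw [if_neg h, abs_zero]; exact hB
    rw [abs_mul]
    exact mul_le_mul (ha i) h3 (abs_nonneg _) hH
  rw [h1]
  refine (Finset.abs_sum_le_sum_abs _ _).trans ((Finset.sum_le_sum h2).trans ?_)
  rw [Finset.sum_const, Finset.card_range, nsmul_eq_mul]

lemma prod_coeff_le (m : ℕ) (H : ℤ) : ∀ (k : ℕ) (a : Fin (k + 1) → ℕ → ℤ),
    (∀ j i, |a j i| ≤ H) → ∀ n : ℕ,
    |(∏ j, poly m (a j)).coeff n| ≤ m ^ k * H ^ (k + 1) := by
  intro k
  induction k with
  | zero =>
    intro a ha n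
    simpa using poly_coeff_le m (a 0) H (ha 0) n
  | succ k ih =>
    intro a ha n
    rw [Fin.prod_univ_succ]
    have h1 := mul_coeff_le m (a 0) H (m ^ k * H ^ (k + 1)) (ha 0)
      (∏ j : Fin (k + 1), poly m (a j.succ)) (ih (fun j => a j.succ) fun j => ha j.succ) n
    refine h1.trans (le_of_eq ?_)
    ring

lemma prod_natDegree (m k : ℕ) (a : Fin k → ℕ → ℤ) :
    (∏ j, poly m (a j)).natDegree ≤ k * m := by
  refine (natDegree_prod_le _ _).trans ?_
  refine (Finset.sum_le_sum fun j _ => poly_natDegree m (a j)).trans ?_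
  simp

lemma MM_prod (k : ℕ) (f : Fin k → ℤ[X]) : MM (∏ j, f j) = ∏ j, MM (f j) := by
  induction k with
  | zero => simp [MM_one]
  | succ k ih => rw [Fin.prod_univ_succ, Fin.prod_univ_succ, MM_mul, ih]

lemma MM_prod_le (m : ℕ) (H : ℤ) (k : ℕ) (a : Fin k → ℕ → ℤ) (ha : ∀ j i, |a j i| ≤ H) :
    MM (∏ j, poly m (a j)) ≤ (m * H : ℝ) ^ k := by
  rw [MM_prod]
  calc ∏ j, MM (poly m (a j)) ≤ ∏ _j : Fin k, (m * H : ℝ) := by
        apply Finset.prod_le_prod
        · intro j _; exact mahlerMeasure_nonneg _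
        · intro j _; exact MM_poly_le m (a j) H (ha j)
    _ = _ := by simp

/-- a constant depending on `k` -/
noncomputable def cc (k : ℕ) : ℝ := 1 + Real.log k / Real.log 2

lemma cc_ge (k : ℕ) : 1 ≤ cc k := by
  unfold cc
  have : 0 ≤ Real.log k / Real.log 2 := div_nonneg (Real.log_natCast_nonneg k)
    (Real.log_nonneg (by norm_num))
  linarith

/-- a constant depending on `k` -/
noncomputable def CC (k : ℕ) : ℝ := 33 * k * cc k ^ 3

lemma err_estk (k m : ℕ) (hk : 1 ≤ k) (H M : ℝ) (hm : 1 ≤ m) (hH : 1 ≤ H)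
    (hM : M ≤ (m * H) ^ k) (hM1 : 1 ≤ M) :
    Real.sqrt (k * m : ℕ) * (Real.log (2 * (k * m : ℕ))) ^ 2 +
      (Real.log (2 * (k * m : ℕ))) ^ 3 * Real.log M ≤ CC k * err m H := by
  have hm1 : (1:ℝ) ≤ m := by exact_mod_cast hm
  have hk1 : (1:ℝ) ≤ k := by exact_mod_cast hk
  have hl2 : 0 < Real.log 2 := Real.log_pos (by norm_num)
  have hL : Real.log 2 ≤ Real.log (2 * m) := Real.log_le_log (by norm_num) (by linarith)
  set L := Real.log (2 * m) with hLdef
  have hL0 : 0 < L := by linarith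
  have hc := cc_ge k
  set c := cc k with hcdef
  have hlk : 0 ≤ Real.log k := Real.log_nonneg hk1
  have h4 : Real.log (2 * (k * m : ℕ)) ≤ c * L := by
    have h5 : (2 * ((k * m : ℕ) : ℝ)) = k * (2 * m) := by push_cast; ring
    rw [h5, Real.log_mul (by linarith) (by linarith), hcdef, cc, add_mul, one_mul, ← hLdef]
    have h6 : Real.log k = Real.log k / Real.log 2 * Real.log 2 := by field_simp
    have h7 : Real.log k / Real.log 2 * Real.log 2 ≤ Real.log k / Real.log 2 * L := by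
      gcongr
    linarith
  have h40 : 0 ≤ Real.log (2 * (k * m : ℕ)) := by
    apply Real.log_nonneg
    have : (1:ℝ) ≤ ((k * m : ℕ) : ℝ) := by exact_mod_cast Nat.one_le_iff_ne_zero.mpr (by positivity)
    linarith
  have hs : Real.sqrt (k * m : ℕ) ≤ k * Real.sqrt m := by
    push_cast
    rw [Real.sqrt_mul (by linarith)]
    have : Real.sqrt k ≤ k := by
      rw [Real.sqrt_le_left (by linarith)]
      nlinarith
    gcongr
  have hs0 : 0 ≤ Real.sqrt m := Real.sqrt_nonneg _
  have hlH : 0 ≤ Real.log H := Real.log_nonneg hH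
  have hlM0 : 0 ≤ Real.log M := Real.log_nonneg hM1
  have hlogM : Real.log M ≤ k * (L + Real.log H) := by
    calc Real.log M ≤ Real.log ((m * H) ^ k) := Real.log_le_log (by linarith) hM
      _ = k * (Real.log m + Real.log H) := by
        rw [Real.log_pow, Real.log_mul (by linarith) (by linarith)]
      _ ≤ k * (L + Real.log H) := by
        have : Real.log m ≤ L := Real.log_le_log (by linarith) (by linarith)
        gcongr
  -- L ^ 2 ≤ 32 √m
  have hL2 : L ^ 2 ≤ 32 * Real.sqrt m := by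
    have h1 : (0:ℝ) < Real.sqrt (2 * m) := Real.sqrt_pos.mpr (by linarith)
    have h2 : (0:ℝ) < Real.sqrt (Real.sqrt (2 * m)) := Real.sqrt_pos.mpr h1
    have h3 : Real.log (2 * m) = 4 * Real.log (Real.sqrt (Real.sqrt (2 * m))) := by
      rw [Real.log_sqrt h1.le, Real.log_sqrt (by linarith)]
      ring
    have h5 : Real.log (Real.sqrt (Real.sqrt (2 * m))) ≤ Real.sqrt (Real.sqrt (2 * m)) :=
      (Real.log_le_sub_one_of_pos h2).trans (by linarith)
    have h6 : L ≤ 4 * Real.sqrt (Real.sqrt (2 * m)) := by rw [hLdef, h3]; linarith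
    have h7 : L ^ 2 ≤ 16 * Real.sqrt (2 * m) := by
      calc L ^ 2 ≤ (4 * Real.sqrt (Real.sqrt (2 * m))) ^ 2 := by gcongr
        _ = 16 * Real.sqrt (2 * m) := by
          rw [mul_pow, Real.sq_sqrt h1.le]; norm_num
    have h8 : Real.sqrt (2 * m) ≤ 2 * Real.sqrt m := by
      calc Real.sqrt (2 * m) ≤ Real.sqrt (4 * m) := Real.sqrt_le_sqrt (by linarith)
        _ = 2 * Real.sqrt m := by
          rw [Real.sqrt_mul (by norm_num)]
          congr 1
          rw [show (4:ℝ) = 2 ^ 2 by norm_num, Real.sqrt_sq (by norm_num)]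
    linarith
  have hA : Real.sqrt (k * m : ℕ) * (Real.log (2 * (k * m : ℕ))) ^ 2 ≤
      (k * c ^ 2) * (Real.sqrt m * L ^ 2) := by
    calc Real.sqrt (k * m : ℕ) * (Real.log (2 * (k * m : ℕ))) ^ 2
        ≤ (k * Real.sqrt m) * (c * L) ^ 2 := by gcongr
      _ = _ := by ring
  have hB : (Real.log (2 * (k * m : ℕ))) ^ 3 * Real.log M ≤
      (32 * k * c ^ 3) * (Real.sqrt m * L ^ 2) + (k * c ^ 3) * (L ^ 3 * Real.log H) := by
    calc (Real.log (2 * (k * m : ℕ))) ^ 3 * Real.log M
        ≤ (c * L) ^ 3 * (k * (L + Real.log H)) := by gcongr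
      _ = (k * c ^ 3) * (L ^ 2 * L ^ 2) + (k * c ^ 3) * (L ^ 3 * Real.log H) := by ring
      _ ≤ (k * c ^ 3) * ((32 * Real.sqrt m) * L ^ 2) + (k * c ^ 3) * (L ^ 3 * Real.log H) := by
        gcongr
      _ = _ := by ring
  unfold err
  rw [← hLdef, CC, ← hcdef]
  have h9 : 0 ≤ Real.sqrt m * L ^ 2 := by positivity
  have h10 : 0 ≤ L ^ 3 * Real.log H := by positivity
  have h11 : c ^ 2 ≤ c ^ 3 := by nlinarith [sq_nonneg c]
  have h12 : k * c ^ 2 ≤ k * c ^ 3 := by gcongr
  have h13 : (k * c ^ 2) * (Real.sqrt m * L ^ 2) ≤ (k * c ^ 3) * (Real.sqrt m * L ^ 2) := by gcongr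
  have h14 : (0:ℝ) ≤ (k * c ^ 3) * (L ^ 3 * Real.log H) := by positivity
  nlinarith

/-- **Few `k`-tuples have the same product.** -/
theorem tuples (k : ℕ) : ∃ K : ℝ, 0 < K ∧ ∀ m : ℕ, 1 ≤ m → ∀ H : ℕ, 1 ≤ H → ∀ b : ℤ,
    2 * m ^ k * H ^ (k + 1) < b → ∀ G : Finset (Fin (k + 1) → ℤ),
    (∀ x ∈ G, ∀ i, Small m H b (x i) ∧ x i ≠ 0) →
    (G.card : ℝ) ≤ Real.exp (K * err m H) * #(G.image fun x => ∏ i, x i) := by
  classical
  obtain ⟨K, hK, hdiv⟩ := divisor_bound
  have hCC : 0 < CC (k + 1) := by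
    unfold CC
    have := cc_ge (k + 1)
    positivity
  refine ⟨(k + 1) * (CC (k + 1) * K), by positivity, ?_⟩
  intro m hm H hH b hb G hG
  have hH1 : (1:ℝ) ≤ H := by exact_mod_cast hH
  set E : ℝ := Real.exp (CC (k + 1) * K * err m H) with hE
  have hE0 : 0 ≤ E := (Real.exp_pos _).le
  have hEk : Real.exp ((k + 1) * (CC (k + 1) * K) * err m H) = E ^ (k + 1) := by
    rw [hE, ← Real.exp_nat_mul]
    push_cast
    ring_nf
  rw [hEk]
  have hall : ∀ x : ℤ, Small m H b x → ∃ a : ℕ → ℤ, (∀ i, |a i| ≤ (H : ℤ)) ∧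
      (poly m a).eval b = x := by
    rintro x ⟨a, ha, hx⟩
    exact ⟨a, ha, by rw [poly_eval, hx]⟩
  choose! a ha hae using hall
  have hfib : ∀ z ∈ G.image (fun x : Fin (k + 1) → ℤ => ∏ i, x i),
      #{x ∈ G | ∏ i, x i = z} ≤ ⌊E ^ (k + 1)⌋₊ := by
    intro z hz
    obtain ⟨p0, hp0, hz0⟩ := Finset.mem_image.mp hz
    have hprod : ∀ p ∈ G,
        (∀ n, |(∏ j, poly m (a (p j))).coeff n| ≤ m ^ k * (H:ℤ) ^ (k + 1)) ∧
        (∏ j, poly m (a (p j))).eval b = ∏ i, p i := by
      intro p hp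
      refine ⟨prod_coeff_le m H k (fun j => a (p j)) fun j => ha _ (hG p hp j).1, ?_⟩
      rw [eval_prod]
      exact Finset.prod_congr rfl fun j _ => hae _ (hG p hp j).1
    set P := ∏ j, poly m (a (p0 j)) with hP
    have hP0 : P ≠ 0 := by
      intro h
      have h1 := (hprod p0 hp0).2
      rw [← hP, h, eval_zero] at h1
      exact Finset.prod_ne_zero_iff.mpr (fun i _ => (hG p0 hp0 i).2) h1.symm
    have hPdeg : P.natDegree ≤ (k + 1) * m := prod_natDegree m (k + 1) fun j => a (p0 j)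
    obtain ⟨hfin, hcard⟩ := hdiv ((k + 1) * m) (Nat.one_le_iff_ne_zero.mpr (by positivity)) P hP0 hPdeg
    have hMP : MM P ≤ (m * H : ℝ) ^ (k + 1) := by
      have := MM_prod_le m H (k + 1) (fun j => a (p0 j)) fun j => ha _ (hG p0 hp0 j).1
      exact_mod_cast this
    have hcard' : ({f : ℤ[X] | f ∣ P}.ncard : ℝ) ≤ E := by
      refine hcard.trans ?_
      rw [hE]
      apply Real.exp_le_exp.mpr
      have := err_estk (k + 1) m (by omega) H (MM P) hm hH1 hMP (one_le_MM hP0)
      calc K * _ ≤ K * (CC (k + 1) * err m H) := mul_le_mul_of_nonneg_left this hK.le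
        _ = _ := by ring
    apply Nat.le_floor
    set D : Finset ℤ[X] := hfin.toFinset with hD
    have hDcard : (D.card : ℝ) ≤ E := by
      rw [hD, ← Set.ncard_eq_toFinset_card _ hfin]
      exact hcard'
    have hle : #{x ∈ G | ∏ i, x i = z} ≤ (Fintype.piFinset fun _ : Fin (k + 1) => D).card := by
      apply Finset.card_le_card_of_injOn (fun x : Fin (k + 1) → ℤ => fun j => poly m (a (x j)))
      · intro p hp
        simp only [Finset.coe_filter, Set.mem_ofPred_eq] at hp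
        rw [Finset.mem_coe, Fintype.mem_piFinset]
        intro j
        rw [hD, Set.Finite.mem_toFinset]
        have h1 := hprod p hp.1
        have h2 := hprod p0 hp0
        have h3 : (∏ j, poly m (a (p j))) - P = 0 := by
          apply eval_inj _ b
          · intro n
            rw [coeff_sub]
            have h4 := h1.1 n
            have h5 := h2.1 n
            rw [← hP] at h5
            have h6 := abs_sub ((∏ j, poly m (a (p j))).coeff n) (P.coeff n)
            linarith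
          · rw [eval_sub, h1.2, hP, h2.2, hp.2, hz0, sub_self]
        show poly m (a (p j)) ∣ P
        rw [← sub_eq_zero.mp h3]
        exact Finset.dvd_prod_of_mem _ (Finset.mem_univ j)
      · intro p hp q hq hpq
        simp only [Finset.coe_filter, Set.mem_ofPred_eq] at hp hq
        ext j
        have h1 := congrFun hpq j
        have := congrArg (fun f : ℤ[X] => f.eval b) h1
        simp only at this
        rw [hae _ (hG p hp.1 j).1, hae _ (hG q hq.1 j).1] at this
        exact this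
    rw [Fintype.card_piFinset, Finset.prod_const, Finset.card_univ, Fintype.card_fin] at hle
    calc ((#{x ∈ G | ∏ i, x i = z} : ℕ) : ℝ) ≤ ((D.card ^ (k + 1) : ℕ) : ℝ) := by exact_mod_cast hle
      _ = (D.card : ℝ) ^ (k + 1) := by push_cast; rfl
      _ ≤ E ^ (k + 1) := by gcongr
  have h1 := Finset.card_le_mul_card_image G ⌊E ^ (k + 1)⌋₊ hfib
  have h2 : (⌊E ^ (k + 1)⌋₊ : ℝ) ≤ E ^ (k + 1) := Nat.floor_le (by positivity)
  calc (G.card : ℝ) ≤ (⌊E ^ (k + 1)⌋₊ : ℝ) * #(G.image fun x => ∏ i, x i) := by exact_mod_cast h1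
    _ ≤ E ^ (k + 1) * #(G.image fun x => ∏ i, x i) := by gcongr

end Pool.Agent.T2H83.ES
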