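import Mathlib
import Pool.Agent.T2H83.ES.Digits

/-!
# `k`-fold products of sets covered by dilates of sets of integers with small digits
-/

set_option autoImplicit false

open Finset Polynomial

namespace Pool.Agent.T2H83.ES

open Pool.Agent.Y806.SD Pool.Agent.H388SL

/-- the `k`-fold product set, as in the frozen statement -/
def prodSet (k : ℕ) (A : Finset ℤ) : Finset ℤ :=
  (Fintype.piFinset (fun _ : Fin k => A)).image (fun f : Fin k → ℤ => ∏ i, f i)

lemma two_pow_le (k m : ℕ) (H : ℝ) (hm : 1 ≤ m) (hH : 1 ≤ H) :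
    (2:ℝ) ^ (k + 1) ≤ Real.exp (3 * (k + 1) * err m H) := by
  have h1 := four_le m H hm hH
  have h2 : (2:ℝ) ≤ Real.exp (3 * err m H) := by linarith
  calc (2:ℝ) ^ (k + 1) ≤ (Real.exp (3 * err m H)) ^ (k + 1) := by gcongr
    _ = _ := by
      rw [← Real.exp_nat_mul]
      push_cast
      ring_nf

/-- sets covered by `T` dilates of sets of integers with small digits -/
theorem coveredk (k : ℕ) : ∃ K : ℝ, 0 < K ∧ ∀ (T : ℕ) (E : ℝ) (lam : Fin T → ℚ)
    (b : Fin T → ℤ) (m H : Fin T → ℕ), (∀ j, 1 ≤ m j) → (∀ j, 1 ≤ H j) →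
    (∀ j, 2 * (m j) ^ k * (H j) ^ (k + 1) < b j) → (∀ j, err (m j) (H j) ≤ E) →
    ∀ A B : Finset ℤ, B ⊆ A →
    (∀ x ∈ B, ∃ j, ∃ y : ℤ, Small (m j) (H j) (b j) y ∧ (x : ℚ) = lam j * y) →
    (B.card : ℝ) ^ (k + 1) ≤ T ^ (k + 1) * Real.exp (K * E) * (prodSet (k + 1) A).card := by
  classical
  obtain ⟨K, hK, htup⟩ := tuples k
  refine ⟨3 * (k + 1) + K, by positivity, ?_⟩
  intro T E lam b m H hm hH hb hE A B hBA hB
  rcases B.eq_empty_or_nonempty with hBe | hBne
  · subst hBe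
    have : (0:ℝ) ^ (k + 1) = 0 := by simp
    rw [Finset.card_empty, Nat.cast_zero, this]
    positivity
  have hT : 1 ≤ T := by
    obtain ⟨x, hx⟩ := hBne
    obtain ⟨j, _⟩ := hB x hx
    have := j.2
    omega
  have hT1 : (1:ℝ) ≤ T := by exact_mod_cast hT
  have hE0 : 0 ≤ E := (err_nonneg (m ⟨0, by omega⟩) (H ⟨0, by omega⟩) (hm _)
    (by exact_mod_cast hH _)).trans (hE _)
  have hAA : (1:ℝ) ≤ (prodSet (k + 1) A).card := by
    have hA : A.Nonempty := hBne.mono hBA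
    have : (prodSet (k + 1) A).Nonempty :=
      Finset.Nonempty.image (Fintype.piFinset_nonempty.mpr fun _ => hA) _
    exact_mod_cast Finset.card_pos.mpr this
  have hE1 : 1 ≤ Real.exp ((3 * (k + 1) + K) * E) := Real.one_le_exp (by positivity)
  set A' := B.erase 0 with hA'
  rcases A'.eq_empty_or_nonempty with hAe' | hAne'
  · have h1 : B.card ≤ 1 := by
      have := Finset.pred_card_le_card_erase (s := B) (a := 0)
      rw [← hA', hAe', Finset.card_empty] at this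
      omega
    have h2 : (B.card : ℝ) ≤ 1 := by exact_mod_cast h1
    have h4 : (B.card : ℝ) ^ (k + 1) ≤ 1 := pow_le_one₀ (Nat.cast_nonneg _) h2
    have h5 : (1:ℝ) ≤ T ^ (k + 1) * Real.exp ((3 * (k + 1) + K) * E) * (prodSet (k + 1) A).card := by
      have : (1:ℝ) ≤ T ^ (k + 1) := one_le_pow₀ hT1
      have h6 : (1:ℝ) ≤ T ^ (k + 1) * Real.exp ((3 * (k + 1) + K) * E) :=
        one_le_mul_of_one_le_of_one_le this hE1
      exact one_le_mul_of_one_le_of_one_le h6 hAA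
    linarith
  -- main case
  have hA2 : B.card ≤ 2 * A'.card := by
    have h1 := Finset.pred_card_le_card_erase (s := B) (a := 0)
    have h2 := Finset.card_pos.mpr hAne'
    rw [← hA'] at h1
    omega
  have hne : Nonempty (Fin T) := ⟨⟨0, by omega⟩⟩
  choose! f y hf using hB
  have hmem : ∀ x ∈ A', x ∈ B ∧ x ≠ 0 :=
    fun x hx => ⟨Finset.mem_of_mem_erase hx, Finset.ne_of_mem_erase hx⟩
  obtain ⟨j, -, hj⟩ : ∃ j ∈ (Finset.univ : Finset (Fin T)),
      A'.card ≤ T * #{x ∈ A' | f x = j} := by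
    by_contra hcon
    push Not at hcon
    have h1 : A'.card = ∑ j : Fin T, #{x ∈ A' | f x = j} :=
      Finset.card_eq_sum_card_fiberwise (fun x _ => Finset.mem_univ _)
    have h2 : T * A'.card = ∑ j : Fin T, T * #{x ∈ A' | f x = j} := by
      rw [← Finset.mul_sum, ← h1]
    have h3 : ∑ j : Fin T, T * #{x ∈ A' | f x = j} < ∑ _j : Fin T, A'.card :=
      Finset.sum_lt_sum_of_nonempty ⟨⟨0, by omega⟩, Finset.mem_univ _⟩ fun j hj => hcon j hj
    rw [← h2, Finset.sum_const, Finset.card_univ, Fintype.card_fin, smul_eq_mul] at h3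
    exact lt_irrefl _ h3
  have hmj := hm j
  have hHj := hH j
  have hHj1 : (1:ℝ) ≤ H j := by exact_mod_cast hHj
  set F := {x ∈ A' | f x = j} with hF
  have hFm : ∀ x ∈ F, x ∈ A ∧ x ≠ 0 ∧ Small (m j) (H j) (b j) (y x) ∧
      (x : ℚ) = lam j * y x := by
    intro x hx
    rw [hF, Finset.mem_filter] at hx
    obtain ⟨h1, h2⟩ := hmem x hx.1
    obtain ⟨h3, h4⟩ := hf x h1
    rw [hx.2] at h3 h4
    exact ⟨hBA h1, h2, h3, h4⟩
  set C := F.image y with hC
  have hCcard : C.card = F.card := by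
    apply Finset.card_image_of_injOn
    intro x hx x' hx' h
    have h1 := (hFm x hx).2.2.2
    have h2 := (hFm x' hx').2.2.2
    rw [h, ← h2] at h1
    exact_mod_cast h1
  have hFne : F.Nonempty := by
    rw [← Finset.card_pos]
    by_contra h
    have h1 : F.card = 0 := by omega
    rw [h1, mul_zero] at hj
    have := Finset.card_pos.mpr hAne'
    omega
  have hlam : lam j ≠ 0 := by
    obtain ⟨x, hx⟩ := hFne
    intro h
    have h1 := (hFm x hx).2.2.2
    rw [h, zero_mul] at h1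
    exact (hFm x hx).2.1 (by exact_mod_cast h1)
  have hCm : ∀ w ∈ C, Small (m j) (H j) (b j) w ∧ w ≠ 0 ∧
      ∃ x ∈ A, (x : ℚ) = lam j * w := by
    intro w hw
    obtain ⟨x, hx, rfl⟩ := Finset.mem_image.mp hw
    obtain ⟨h1, h2, h3, h4⟩ := hFm x hx
    refine ⟨h3, ?_, x, h1, h4⟩
    intro h
    rw [h, Int.cast_zero, mul_zero] at h4
    exact h2 (by exact_mod_cast h4)
  have h1 := htup (m j) hmj (H j) hHj (b j) (hb j) (Fintype.piFinset fun _ : Fin (k + 1) => C) (by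
    intro x hx i
    rw [Fintype.mem_piFinset] at hx
    exact ⟨(hCm _ (hx i)).1, (hCm _ (hx i)).2.1⟩)
  have h2 : #((Fintype.piFinset fun _ : Fin (k + 1) => C).image fun x => ∏ i, x i) ≤
      #(prodSet (k + 1) A) := by
    have h3 : ((Fintype.piFinset fun _ : Fin (k + 1) => C).image fun x => ∏ i, x i).image
        (fun z : ℤ => (lam j) ^ (k + 1) * (z : ℚ)) ⊆
        (prodSet (k + 1) A).image (fun z : ℤ => (z : ℚ)) := by
      intro w hw
      obtain ⟨z, hz, rfl⟩ := Finset.mem_image.mp hw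
      obtain ⟨p, hp, rfl⟩ := Finset.mem_image.mp hz
      rw [Fintype.mem_piFinset] at hp
      choose g hg1 hg2 using fun i => (hCm _ (hp i)).2.2
      refine Finset.mem_image.mpr ⟨∏ i, g i, ?_, ?_⟩
      · exact Finset.mem_image.mpr ⟨g, Fintype.mem_piFinset.mpr hg1, rfl⟩
      · push_cast
        simp_rw [hg2]
        rw [Finset.prod_mul_distrib, Finset.prod_const, Finset.card_univ, Fintype.card_fin]
    have h4 := Finset.card_le_card h3
    rw [Finset.card_image_of_injective _ (fun a c hac => by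
        have h5 : (lam j) ^ (k + 1) ≠ 0 := pow_ne_zero _ hlam
        exact_mod_cast mul_left_cancel₀ h5 hac),
      Finset.card_image_of_injective _ Int.cast_injective] at h4
    exact h4
  rw [Fintype.card_piFinset, Finset.prod_const, Finset.card_univ, Fintype.card_fin, hCcard] at h1
  have h5 : (B.card : ℝ) ≤ 2 * (T * F.card) := by
    have : B.card ≤ 2 * (T * F.card) := hA2.trans (Nat.mul_le_mul_left _ hj)
    exact_mod_cast this
  have h7 : (#((Fintype.piFinset fun _ : Fin (k + 1) => C).image fun x => ∏ i, x i) : ℝ) ≤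
      (prodSet (k + 1) A).card := by exact_mod_cast h2
  push_cast at h1
  have hEj := hE j
  calc (B.card : ℝ) ^ (k + 1) ≤ (2 * ((T : ℝ) * F.card)) ^ (k + 1) := by gcongr
    _ = (T : ℝ) ^ (k + 1) * (2 ^ (k + 1) * (F.card : ℝ) ^ (k + 1)) := by ring
    _ ≤ (T : ℝ) ^ (k + 1) * (Real.exp (3 * (k + 1) * err (m j) (H j)) *
        (Real.exp (K * err (m j) (H j)) * (prodSet (k + 1) A).card)) := by
        have h8 := two_pow_le k (m j) (H j) hmj hHj1
        have h9 : (F.card : ℝ) ^ (k + 1) ≤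
            Real.exp (K * err (m j) (H j)) * (prodSet (k + 1) A).card :=
          h1.trans (by gcongr)
        gcongr
    _ ≤ (T : ℝ) ^ (k + 1) * (Real.exp (3 * (k + 1) * E) *
        (Real.exp (K * E) * (prodSet (k + 1) A).card)) := by gcongr
    _ = T ^ (k + 1) * Real.exp ((3 * (k + 1) + K) * E) * (prodSet (k + 1) A).card := by
        rw [add_mul, Real.exp_add]; ring

/-- the conjectured exponent -/
theorem conj (k : ℕ) (ε : ℝ) (hε : 0 < ε) : ∃ δ : ℝ, 0 < δ ∧
    ∀ A B : Finset ℤ, A.Nonempty → B ⊆ A → (A.card : ℝ) ^ (1 - δ) ≤ B.card →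
    ∀ (T : ℕ) (lam : Fin T → ℚ) (b : Fin T → ℤ) (m H : Fin T → ℕ), (T : ℝ) ≤ (A.card : ℝ) ^ δ →
    (∀ j, 1 ≤ m j) → (∀ j, 1 ≤ H j) → (∀ j, 2 * (m j) ^ k * (H j) ^ (k + 1) < b j) →
    (∀ j, err (m j) (H j) ≤ δ * Real.log A.card) →
    (∀ x ∈ B, ∃ j, ∃ y : ℤ, Small (m j) (H j) (b j) y ∧ (x : ℚ) = lam j * y) →
    (A.card : ℝ) ^ (((k + 1 : ℕ) : ℝ) - ε) ≤ (prodSet (k + 1) A).card := by
  obtain ⟨K, hK, hcov⟩ := coveredk k
  set δ := ε / (2 * (k + 1) + K) with hδ
  have hδ0 : 0 < δ := by positivity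
  refine ⟨δ, hδ0, ?_⟩
  intro A B hA hBA hB T lam b m H hT hm hH hb hE hcovB
  have h1 := hcov T (δ * Real.log A.card) lam b m H hm hH hb hE A B hBA hcovB
  have hpos : 0 < (A.card : ℝ) := by exact_mod_cast hA.card_pos
  have h2 : Real.exp (K * (δ * Real.log A.card)) = (A.card : ℝ) ^ (K * δ) := by
    rw [Real.rpow_def_of_pos hpos]; ring_nf
  have h3 : (A.card : ℝ) ^ ((1 - δ) * (k + 1 : ℕ)) ≤ (B.card : ℝ) ^ (k + 1) := by
    rw [Real.rpow_mul hpos.le, Real.rpow_natCast]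
    gcongr
  have h4 : (T : ℝ) ^ (k + 1) ≤ (A.card : ℝ) ^ (δ * (k + 1 : ℕ)) := by
    rw [Real.rpow_mul hpos.le, Real.rpow_natCast]
    gcongr
  have h5 : (A.card : ℝ) ^ ((1 - δ) * (k + 1 : ℕ)) ≤
      (A.card : ℝ) ^ (δ * (k + 1 : ℕ)) * (A.card : ℝ) ^ (K * δ) * (prodSet (k + 1) A).card := by
    refine h3.trans (h1.trans ?_)
    rw [h2]
    gcongr
  have h6 : (A.card : ℝ) ^ (((k + 1 : ℕ) : ℝ) - ε) * ((A.card : ℝ) ^ (δ * (k + 1 : ℕ)) *
      (A.card : ℝ) ^ (K * δ)) = (A.card : ℝ) ^ ((1 - δ) * (k + 1 : ℕ)) := by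
    rw [← Real.rpow_add hpos, ← Real.rpow_add hpos]
    congr 1
    have h7 : δ * (2 * (k + 1) + K) = ε := by rw [hδ]; field_simp
    push_cast
    linarith
  have h8 : 0 < (A.card : ℝ) ^ (δ * (k + 1 : ℕ)) * (A.card : ℝ) ^ (K * δ) := by positivity
  refine le_of_mul_le_mul_right ?_ h8
  rw [h6]
  refine h5.trans (le_of_eq (by ring))

end Pool.Agent.T2H83.ES
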